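import Pool.Agent.GLam.Reduce

open MeasureTheory Set ENNReal Pool.Agent.GLam

namespace Pool.Agent.Results.MP_842e08_an.Characterisation

/-- **Answer to Q1.** For `1 < λ ≤ 2` and `2/λ < p < 2` and every weight `U`, the weighted
inequality `(∗)` for `g_λ^*` holds if and only if `U ∈ A_p ∩ B_{λp/2}`.

The last clause records that the statement is not about divergent integrals: if `U` lies in
`A_p ∩ B_{λp/2}` and is not a.e. zero, then for every `f` with finite right side the Poisson
integral converges absolutely at every point of the upper half plane and both partial derivatives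
there exist. -/
theorem result (l p : ℝ) (hl : 1 < l) (hl2 : l ≤ 2) (hp : 2 / l < p) (hp2 : p < 2)
    (U : ℝ → ℝ) (hU : IsWeight U) :
    (GStarBound l p U ↔ InA p U ∧ InB (l * p / 2) U) ∧
    (InA p U → InB (l * p / 2) U → ¬ U =ᵐ[volume] 0 →
      ∀ f : ℝ → ℝ, AEMeasurable f → ∫⁻ x, ENNReal.ofReal (|f x| ^ p * U x) < ∞ →
      ∀ z y : ℝ, 0 < y → Integrable (fun x => y * f (z - x) / (x ^ 2 + y ^ 2)) ∧
        DifferentiableAt ℝ (fun s => poisson f s y) z ∧
        DifferentiableAt ℝ (fun s => poisson f z s) y) := by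
  have hl0 : 0 < l := by linarith
  have hp1 : 1 < p := by
    have h1 : 2 / l ≥ 1 := by rw [ge_iff_le, le_div_iff₀ hl0]; linarith
    linarith
  have hp0 : 0 < p := by linarith
  refine ⟨⟨fun h => ⟨nec_A hl0 hl2 hp1 hp2 hU h, nec_B hl0 hl2 hp0 hU h⟩, fun h => ?_⟩, ?_⟩
  · by_cases hne : U =ᵐ[volume] 0
    · refine ⟨0, fun f _ _ => ?_⟩
      have h0 : (fun x => gstar l f x ^ p * ENNReal.ofReal (U x)) =ᵐ[volume] fun _ => 0 := by
        filter_upwards [hne] with x hx
        rw [hx]
        simp
      rw [lintegral_congr_ae h0, lintegral_zero]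
      exact zero_le
    · obtain ⟨C, hC⟩ := suff_general hl0 hl2 hp1 hp2 hU h.1 h.2 hne
      exact ⟨C, fun f hf hfin => (hC f hf hfin).2⟩
  · intro hA hB hne f hf hfin z y hy
    obtain ⟨C, hC⟩ := suff_general hl0 hl2 hp1 hp2 hU hA hB hne
    have hi := (hC f hf hfin).1 z y hy
    refine ⟨?_, (hasDerivAt_z hf hy hi).differentiableAt, (hasDerivAt_y hf hy hi).2.differentiableAt⟩
    have h1 : Integrable (fun x => Pk y (z - (z - x)) * f (z - x)) := hi.comp_sub_left z
    refine (h1.const_mul Real.pi).congr (Filter.Eventually.of_forall (fun x => ?_))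
    have e : z - (z - x) = x := by ring
    have hpi := Real.pi_pos
    simp only [e]
    unfold Pk
    field_simp

end Pool.Agent.Results.MP_842e08_an.Characterisation
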